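import Mathlib

/-!
# MP_0ddcb0_nt, Q1: sparse lower level sets of convolutions without long progressions

The set is `A = J ∪ ⋃_{x, s} V_{x,s}` with `J = [0, N/4]` and, for `x ∈ {0,1}^m` and a sign `s`,
`V_{x,s}` the multiples of `p_x * ∏_j q_{j, x_j + s}` in `[0, 9N/16)` (with one more coordinate
carrying `s`). Two of these sets share one of the small primes `q`, unless they are `V_{x,+}` and
`V_{x,-}`, which share only `p_x`. So the sumset lies in few residue classes outside
`[0, 13N/16]`, but every multiple of each of the `2^m` primes `p_x` has many representations;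
the number of primes `p_x` is exponential in the number of primes defining each `V_{x,s}`.
-/

namespace Pool.Agent.Results.MP_0ddcb0_nt.LowerLevelSets

open scoped Pointwise
open Finset

/-- The number of ordered representations `1_A * 1_A (x)`. -/
def rep {N : ℕ} (A : Finset (ZMod N)) (x : ZMod N) : ℕ :=
  ((A ×ˢ A).filter (fun z => z.1 + z.2 = x)).card

/-- `X ⊆ ℤ_N` contains an arithmetic progression of length `k ≤ N` with nonzero difference. -/
def HasAP (N : ℕ) (X : Set (ZMod N)) (k : ℕ) : Prop :=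
  k ≤ N ∧ ∃ a d : ZMod N, d ≠ 0 ∧ ∀ j : ℕ, j < k → a + (j : ZMod N) * d ∈ X

/-! ### Residue classes in intervals -/

/-- the `j`-th element of the residue class `c mod T` after `s` -/
def cls (T s c j : ℕ) : ℕ := s + (c + (T - 1) * s) % T + j * T

theorem cls_ge (T s c j : ℕ) : s ≤ cls T s c j := by unfold cls; omega

theorem cls_lt {T s c j K : ℕ} (hT : 0 < T) (hj : j < K) : cls T s c j < s + K * T := by
  unfold cls
  have h1 : (c + (T - 1) * s) % T < T := Nat.mod_lt _ hT
  have h2 : (j + 1) * T ≤ K * T := Nat.mul_le_mul_right _ hj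
  have h3 : (j + 1) * T = j * T + T := by ring
  omega

theorem cls_mod {T s c j : ℕ} (hT : 0 < T) : cls T s c j ≡ c [MOD T] := by
  unfold cls
  have h1 : (c + (T - 1) * s) % T ≡ c + (T - 1) * s [MOD T] := Nat.mod_modEq _ _
  have h2 : s + (c + (T - 1) * s) % T + j * T ≡ s + (c + (T - 1) * s) + j * T [MOD T] :=
    Nat.ModEq.add_right _ (Nat.ModEq.add_left _ h1)
  refine h2.trans ?_
  have h3 : s + (c + (T - 1) * s) + j * T = c + (s + j) * T := by
    obtain ⟨t, rfl⟩ : ∃ t, T = t + 1 := ⟨T - 1, by omega⟩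
    simp only [Nat.add_sub_cancel]
    ring
  rw [h3]
  exact Nat.ModEq.symm ((Nat.modEq_iff_dvd' (by omega)).2 ⟨s + j, by rw [Nat.add_sub_cancel_left]; ring⟩)

theorem cls_inj {T s c i j : ℕ} (hT : 0 < T) (h : cls T s c i = cls T s c j) : i = j := by
  unfold cls at h
  have : i * T = j * T := by omega
  exact Nat.eq_of_mul_eq_mul_right hT this

/-- A lower bound for the number of representations. -/
theorem rep_ge {N : ℕ} {A : Finset (ZMod N)} {x : ZMod N} {K : ℕ} (f : ℕ → ℕ)
    (hf : ∀ j < K, f j < N) (hinj : ∀ i < K, ∀ j < K, f i = f j → i = j)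
    (h1 : ∀ j < K, ((f j : ℕ) : ZMod N) ∈ A) (h2 : ∀ j < K, x - ((f j : ℕ) : ZMod N) ∈ A) :
    K ≤ rep A x := by
  unfold rep
  have h3 : ((Finset.range K).image (fun j => (((f j : ℕ) : ZMod N), x - ((f j : ℕ) : ZMod N)))).card
      = K := by
    rw [Finset.card_image_of_injOn, Finset.card_range]
    intro a ha b hb hab
    rw [Finset.coe_range, Set.mem_Iio] at ha hb
    have h4 := (Prod.ext_iff.1 hab).1
    simp only at h4
    have h5 := (ZMod.natCast_eq_natCast_iff' _ _ N).1 h4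
    rw [Nat.mod_eq_of_lt (hf a ha), Nat.mod_eq_of_lt (hf b hb)] at h5
    exact hinj a ha b hb h5
  rw [← h3]
  refine Finset.card_le_card ?_
  intro z hz
  obtain ⟨j, hj, rfl⟩ := Finset.mem_image.1 hz
  have hj' := Finset.mem_range.1 hj
  rw [Finset.mem_filter, Finset.mem_product]
  exact ⟨⟨h1 j hj', h2 j hj'⟩, by simp⟩

/-! ### The construction -/

/-- the coordinates of the set `V_{x,s}` -/
def sel {m : ℕ} (x : Fin m → Bool) (s : Bool) : Option (Fin m) → Bool
  | some j => xor (x j) s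
  | none => s

variable {m : ℕ}

theorem sel_not (x : Fin m → Bool) (s : Bool) (o : Option (Fin m)) :
    sel x (!s) o = !(sel x s o) := by
  cases o <;> simp [sel]

/-- the modulus of `V_{x,s}` apart from `p_x` -/
def Q (q : Option (Fin m) × Bool → ℕ) (x : Fin m → Bool) (s : Bool) : ℕ :=
  ∏ o : Option (Fin m), q (o, sel x s o)

/-- the set `V_{x,s}` -/
def V (q : Option (Fin m) × Bool → ℕ) (p : (Fin m → Bool) → ℕ) (H : ℕ) (x : Fin m → Bool)
    (s : Bool) : Finset ℕ := (Finset.range H).filter (fun z => p x * Q q x s ∣ z)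

/-- the set, in `ℕ` -/
def A0 (q : Option (Fin m) × Bool → ℕ) (p : (Fin m → Bool) → ℕ) (N H : ℕ) : Finset ℕ :=
  Finset.range (N / 4 + 1) ∪ (Finset.univ : Finset ((Fin m → Bool) × Bool)).biUnion
    (fun z => V q p H z.1 z.2)

/-- the set -/
def A1 (q : Option (Fin m) × Bool → ℕ) (p : (Fin m → Bool) → ℕ) (N H : ℕ) : Finset (ZMod N) :=
  (A0 q p N H).image (fun x : ℕ => (x : ZMod N))

theorem mem_A0 {q : Option (Fin m) × Bool → ℕ} {p : (Fin m → Bool) → ℕ} {N H z : ℕ} :
    z ∈ A0 q p N H ↔ z ≤ N / 4 ∨ ∃ x s, z < H ∧ p x * Q q x s ∣ z := by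
  unfold A0 V
  rw [Finset.mem_union, Finset.mem_range, Finset.mem_biUnion, Nat.lt_succ_iff]
  refine or_congr Iff.rfl ⟨?_, ?_⟩
  · rintro ⟨⟨x, s⟩, -, h⟩
    rw [Finset.mem_filter, Finset.mem_range] at h
    exact ⟨x, s, h.1, h.2⟩
  · rintro ⟨x, s, h⟩
    refine ⟨(x, s), Finset.mem_univ _, ?_⟩
    rw [Finset.mem_filter, Finset.mem_range]
    exact h

theorem card_A1 {q : Option (Fin m) × Bool → ℕ} {p : (Fin m → Bool) → ℕ} {N H : ℕ}
    (hN : 1 < N) : N / 4 + 1 ≤ (A1 q p N H).card := by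
  have h1 : ((Finset.range (N / 4 + 1)).image (fun x : ℕ => (x : ZMod N))).card = N / 4 + 1 := by
    rw [Finset.card_image_of_injOn, Finset.card_range]
    intro a ha b hb hab
    rw [Finset.coe_range, Set.mem_Iio] at ha hb
    have := (ZMod.natCast_eq_natCast_iff' a b N).1 hab
    have ha' : a < N := by omega
    have hb' : b < N := by omega
    rwa [Nat.mod_eq_of_lt ha', Nat.mod_eq_of_lt hb'] at this
  rw [← h1]
  exact Finset.card_le_card (Finset.image_subset_image Finset.subset_union_left)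

/-- Two of the sets `V_{x,s}` share a prime. -/
theorem common {q : Option (Fin m) × Bool → ℕ} {p : (Fin m → Bool) → ℕ} {x y : Fin m → Bool}
    {s t : Bool} {a b : ℕ} (ha : p x * Q q x s ∣ a) (hb : p y * Q q y t ∣ b) :
    (∃ z, p z ∣ a + b) ∨ ∃ i, q i ∣ a + b := by
  have hQ : ∀ (x : Fin m → Bool) (s : Bool) (o : Option (Fin m)) (a : ℕ), p x * Q q x s ∣ a →
      q (o, sel x s o) ∣ a := by
    intro x s o a h
    exact ((Finset.dvd_prod_of_mem (fun o => q (o, sel x s o)) (Finset.mem_univ o)).trans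
      (Dvd.intro_left _ rfl)).trans h
  by_cases hst : s = t
  · subst hst
    refine Or.inr ⟨(none, s), dvd_add ?_ ?_⟩
    · exact hQ x s none a ha
    · exact hQ y s none b hb
  · by_cases hxy : x = y
    · subst hxy
      exact Or.inl ⟨x, dvd_add ((Dvd.intro _ rfl).trans ha) ((Dvd.intro _ rfl).trans hb)⟩
    · obtain ⟨j, hj⟩ := Function.ne_iff.1 hxy
      refine Or.inr ⟨(some j, xor (x j) s), dvd_add (hQ x s (some j) a ha) ?_⟩
      have h1 := hQ y t (some j) b hb
      have h2 : sel y t (some j) = xor (x j) s := by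
        simp only [sel]
        revert hst hj
        cases x j <;> cases y j <;> cases s <;> cases t <;> simp
      rwa [h2] at h1

theorem card_mult_le (H q : ℕ) (hq : 0 < q) :
    ((Finset.range H).filter (fun z => q ∣ z)).card ≤ H / q + 1 := by
  have h1 : (Finset.range H).filter (fun z => q ∣ z) ⊆
      (Finset.range (H / q + 1)).image (fun j => q * j) := by
    intro z hz
    rw [Finset.mem_filter, Finset.mem_range] at hz
    obtain ⟨hz, j, rfl⟩ := hz
    refine Finset.mem_image.2 ⟨j, Finset.mem_range.2 ?_, rfl⟩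
    have : j ≤ H / q := (Nat.le_div_iff_mul_le hq).2 (by nlinarith)
    omega
  exact (Finset.card_le_card h1).trans (Finset.card_image_le.trans (by simp))

theorem card_A1_add {q : Option (Fin m) × Bool → ℕ} {p : (Fin m → Bool) → ℕ} {N H P B : ℕ}
    (hP : 0 < P) (hB : 0 < B)
    (hp : ∀ x, P ≤ p x) (hq : ∀ i, B ≤ q i) (hH : N / 4 < H) :
    (A1 q p N H + A1 q p N H).card ≤
      (N / 4 + H) + (2 ^ m * (2 * H / P + 1) + 2 * (m + 1) * (2 * H / B + 1)) := by
  set U1 : Finset ℕ := (Finset.univ : Finset (Fin m → Bool)).biUnion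
    (fun x => (Finset.range (2 * H)).filter (fun z => p x ∣ z)) with hU1
  set U2 : Finset ℕ := (Finset.univ : Finset (Option (Fin m) × Bool)).biUnion
    (fun i => (Finset.range (2 * H)).filter (fun z => q i ∣ z)) with hU2
  have h1 : A1 q p N H + A1 q p N H ⊆
      (Finset.range (N / 4 + H) ∪ (U1 ∪ U2)).image (fun x : ℕ => (x : ZMod N)) := by
    intro x hx
    obtain ⟨a', ha', b', hb', rfl⟩ := Finset.mem_add.1 hx
    obtain ⟨a, ha, rfl⟩ := Finset.mem_image.1 ha'
    obtain ⟨b, hb, rfl⟩ := Finset.mem_image.1 hb'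
    refine Finset.mem_image.2 ⟨a + b, ?_, by push_cast; rfl⟩
    rw [mem_A0] at ha hb
    have hA : a < H := by
      rcases ha with h | ⟨x, s, h, -⟩ <;> omega
    have hB' : b < H := by
      rcases hb with h | ⟨x, s, h, -⟩ <;> omega
    rcases ha with ha | ⟨x, s, -, ha⟩
    · exact Finset.mem_union_left _ (Finset.mem_range.2 (by omega))
    · rcases hb with hb | ⟨y, t, -, hb⟩
      · exact Finset.mem_union_left _ (Finset.mem_range.2 (by omega))
      · refine Finset.mem_union_right _ ?_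
        rcases common ha hb with ⟨z, hz⟩ | ⟨i, hi⟩
        · refine Finset.mem_union_left _ (Finset.mem_biUnion.2 ⟨z, Finset.mem_univ _, ?_⟩)
          exact Finset.mem_filter.2 ⟨Finset.mem_range.2 (by omega), hz⟩
        · refine Finset.mem_union_right _ (Finset.mem_biUnion.2 ⟨i, Finset.mem_univ _, ?_⟩)
          exact Finset.mem_filter.2 ⟨Finset.mem_range.2 (by omega), hi⟩
  refine (Finset.card_le_card h1).trans (Finset.card_image_le.trans ?_)
  refine (Finset.card_union_le _ _).trans ?_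
  rw [Finset.card_range]
  refine Nat.add_le_add_left ((Finset.card_union_le _ _).trans (Nat.add_le_add ?_ ?_)) _
  · refine (Finset.card_biUnion_le_card_mul _ _ (2 * H / P + 1) ?_).trans (by simp)
    intro x _
    refine (card_mult_le _ _ (lt_of_lt_of_le hP (hp x))).trans ?_
    exact Nat.add_le_add_right (Nat.div_le_div_left (hp x) hP) 1
  · refine (Finset.card_biUnion_le_card_mul _ _ (2 * H / B + 1) ?_).trans ?_
    · intro i _
      refine (card_mult_le _ _ (lt_of_lt_of_le hB (hq i))).trans ?_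
      exact Nat.add_le_add_right (Nat.div_le_div_left (hq i) hB) 1
    · rw [Finset.card_univ, Fintype.card_prod, Fintype.card_option, Fintype.card_fin,
        Fintype.card_bool, mul_comm (m + 1) 2]

/-! ### Popular elements -/

section Popular

variable {q : Option (Fin m) × Bool → ℕ} {p : (Fin m → Bool) → ℕ} {N h T K : ℕ}

theorem mem_A1 {H z : ℕ} (hz : z ∈ A0 q p N H) : ((z : ℕ) : ZMod N) ∈ A1 q p N H :=
  Finset.mem_image_of_mem _ hz

/-- the elements with representative in `[N/16, 3N/4]` -/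
theorem popular_low (hq0 : ∀ i, 0 < q i) (hp0 : ∀ x, 0 < p x)
    (hN1 : 16 * h ≤ N) (hT : ∀ x, p x * (Q q x false * Q q x true) ≤ T) (hK : K * T ≤ h)
    {v : ℕ} (hv1 : h ≤ v) (hv2 : v ≤ 12 * h) (hh : 0 < h) :
    K ≤ rep (A1 q p N (9 * h)) ((v : ℕ) : ZMod N) := by
  set x0 : Fin m → Bool := fun _ => false with hx0
  set T0 := p x0 * Q q x0 false with hT0
  have hQ0 : ∀ x s, 0 < Q q x s := fun x s => Finset.prod_pos (fun o _ => hq0 _)
  have hT0pos : 0 < T0 := Nat.mul_pos (hp0 _) (hQ0 _ _)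
  have hT0T : T0 ≤ T := by
    refine le_trans ?_ (hT x0)
    exact Nat.mul_le_mul_left _ (Nat.le_mul_of_pos_right _ (hQ0 _ _))
  have hKT : K * T0 ≤ h := (Nat.mul_le_mul_left _ hT0T).trans hK
  obtain ⟨s, hs1, hs2, hs3, hs4⟩ : ∃ s : ℕ, s + h ≤ 9 * h ∧ s + h ≤ v ∧ v ≤ s + 4 * h ∧ s + h ≤ N := by
    rcases Nat.lt_or_ge v (4 * h) with h1 | h1
    · exact ⟨0, by omega, by omega, by omega, by omega⟩
    · exact ⟨v - 4 * h, by omega, by omega, by omega, by omega⟩
  have key : ∀ j < K, cls T0 s 0 j < s + h := fun j hj =>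
    lt_of_lt_of_le (cls_lt hT0pos hj) (by omega)
  refine rep_ge (fun j => cls T0 s 0 j) ?_ ?_ ?_ ?_
  · intro j hj
    have := key j hj
    omega
  · intro i _ j _ hij
    exact cls_inj hT0pos hij
  · intro j hj
    refine mem_A1 (mem_A0.2 (Or.inr ⟨x0, false, ?_, ?_⟩))
    · have := key j hj
      omega
    · exact (Nat.modEq_zero_iff_dvd).1 (cls_mod hT0pos)
  · intro j hj
    have h1 := key j hj
    have h2 := cls_ge T0 s 0 j
    rw [← Nat.cast_sub (by omega)]
    refine mem_A1 (mem_A0.2 (Or.inl ?_))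
    omega

/-- the elements `y ∈ (3N/4, 17N/16)` divisible by one of the large primes -/
theorem popular_high (hq0 : ∀ i, 0 < q i) (hp0 : ∀ x, 0 < p x)
    (hcop : ∀ i j, i ≠ j → Nat.Coprime (q i) (q j))
    (hN1 : 16 * h ≤ N) (hN2 : N < 16 * h + 16)
    (hT : ∀ x, p x * (Q q x false * Q q x true) ≤ T) (hK : K * T + 16 ≤ h)
    {y : ℕ} (hy1 : 12 * h < y) (hy2 : y < N + h) {x : Fin m → Bool} (hx : p x ∣ y) :
    K ≤ rep (A1 q p N (9 * h)) ((y : ℕ) : ZMod N) := by
  have hQ0 : ∀ x s, 0 < Q q x s := fun x s => Finset.prod_pos (fun o _ => hq0 _)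
  obtain ⟨y', rfl⟩ := hx
  have hco : Nat.Coprime (Q q x false) (Q q x true) := by
    refine Nat.Coprime.prod_left (fun o _ => Nat.Coprime.prod_right (fun o' _ => ?_))
    refine hcop _ _ ?_
    intro heq
    have h1 := (Prod.ext_iff.1 heq).1
    have h2 := (Prod.ext_iff.1 heq).2
    simp only at h1 h2
    subst h1
    have h3 := sel_not x false o
    simp only [Bool.not_false] at h3
    rw [h3] at h2
    revert h2
    cases sel x false o <;> simp
  obtain ⟨c', hc1, hc2⟩ := Nat.chineseRemainder hco 0 y'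
  set T0 := p x * (Q q x false * Q q x true) with hT0
  have hT0pos : 0 < T0 := Nat.mul_pos (hp0 _) (Nat.mul_pos (hQ0 _ _) (hQ0 _ _))
  have hKT : K * T0 + 16 ≤ h := by
    have := Nat.mul_le_mul_left K (hT x)
    rw [← hT0] at this
    omega
  set f : ℕ → ℕ := fun j => cls T0 (8 * h + 16) (p x * c') j with hf
  have key : ∀ j < K, f j < 9 * h := fun j hj => by
    have := cls_lt (s := 8 * h + 16) (c := p x * c') hT0pos hj
    simp only [hf]
    omega
  have key2 : ∀ j, 8 * h + 16 ≤ f j := fun j => cls_ge _ _ _ _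
  have hmod : ∀ j, f j ≡ p x * c' [MOD T0] := fun j => cls_mod hT0pos
  have hd1 : ∀ j, p x * Q q x false ∣ f j := by
    intro j
    have h1 : f j ≡ p x * c' [MOD p x * Q q x false] := by
      refine Nat.ModEq.of_dvd ?_ (hmod j)
      exact Nat.mul_dvd_mul_left _ (Dvd.intro _ rfl)
    have h2 : p x * c' ≡ p x * 0 [MOD p x * Q q x false] := Nat.ModEq.mul_left' _ hc1
    exact (Nat.modEq_zero_iff_dvd).1 (by simpa using h1.trans h2)
  have hd2 : ∀ j < K, p x * Q q x true ∣ p x * y' - f j := by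
    intro j hj
    have h1 : f j ≡ p x * c' [MOD p x * Q q x true] := by
      refine Nat.ModEq.of_dvd ?_ (hmod j)
      exact Nat.mul_dvd_mul_left _ (Dvd.intro_left _ rfl)
    have h2 : p x * c' ≡ p x * y' [MOD p x * Q q x true] := Nat.ModEq.mul_left' _ hc2
    refine (Nat.modEq_iff_dvd' ?_).1 (h1.trans h2)
    have := key j hj
    omega
  refine rep_ge f ?_ ?_ ?_ ?_
  · intro j hj
    have := key j hj
    omega
  · intro i _ j _ hij
    exact cls_inj hT0pos hij
  · intro j hj
    exact mem_A1 (mem_A0.2 (Or.inr ⟨x, false, key j hj, hd1 j⟩))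
  · intro j hj
    have h1 := key j hj
    have h2 := key2 j
    rw [← Nat.cast_sub (by omega)]
    refine mem_A1 (mem_A0.2 (Or.inr ⟨x, true, ?_, hd2 j hj⟩))
    omega

end Popular

/-! ### No long progressions -/

theorem no_AP {q : Option (Fin m) × Bool → ℕ} {p : (Fin m → Bool) → ℕ} {N h T K k : ℕ}
    (hq0 : ∀ i, 0 < q i) (hp : ∀ x, (p x).Prime) (hpi : Function.Injective p)
    (hcop : ∀ i j, i ≠ j → Nat.Coprime (q i) (q j))
    (hN1 : 16 * h ≤ N) (hN2 : N < 16 * h + 16) (hh : 16 < h)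
    (hT : ∀ x, p x * (Q q x false * Q q x true) ≤ T) (hK : K * T + 16 ≤ h)
    (hprod : N ≤ 2 ^ (2 ^ m)) (hk : ∀ x, p x < k) :
    ¬ HasAP N {x : ZMod N | rep (A1 q p N (9 * h)) x < K} k := by
  have : NeZero N := ⟨by omega⟩
  have hp0 : ∀ x, 0 < p x := fun x => (hp x).pos
  rintro ⟨-, a, d, hd, hX⟩
  have hlt : ∀ j : ℕ, (a + (j : ZMod N) * d).val < N := fun j => ZMod.val_lt _
  have hX' : ∀ j : ℕ, j < k → (a + (j : ZMod N) * d).val < h ∨ 12 * h < (a + (j : ZMod N) * d).val := by
    intro j hj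
    by_contra hcon
    push Not at hcon
    have h1 := popular_low hq0 hp0 hN1 hT (by omega : K * T ≤ h) hcon.1 hcon.2 (by omega)
    rw [ZMod.natCast_zmod_val] at h1
    have h2 := hX j hj
    rw [Set.mem_ofPred_eq] at h2
    omega
  set y' : ℕ → ℕ := fun j => if (a + (j : ZMod N) * d).val < h then (a + (j : ZMod N) * d).val + N
    else (a + (j : ZMod N) * d).val with hy'
  have hy'cast : ∀ j : ℕ, ((y' j : ℕ) : ZMod N) = a + (j : ZMod N) * d := by
    intro j
    simp only [hy']
    split_ifs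
    · rw [Nat.cast_add, ZMod.natCast_self, add_zero, ZMod.natCast_zmod_val]
    · rw [ZMod.natCast_zmod_val]
  have hy'1 : ∀ j : ℕ, j < k → 12 * h < y' j ∧ y' j < N + h := by
    intro j hj
    have h1 := hX' j hj
    have h2 := hlt j
    simp only [hy']
    split_ifs with h3 <;> constructor <;> omega
  set y : ℕ → ℤ := fun j => (y' j : ℤ) with hy
  have hycast : ∀ j : ℕ, ((y j : ℤ) : ZMod N) = a + (j : ZMod N) * d := by
    intro j
    simp only [hy]
    rw [Int.cast_natCast, hy'cast]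
  have hk2 : 2 < k := lt_of_le_of_lt (hp (fun _ => false)).two_le (hk _)
  set δ : ℤ := y 1 - y 0 with hδ
  have hδcast : ((δ : ℤ) : ZMod N) = d := by
    rw [hδ, Int.cast_sub, hycast, hycast]
    push_cast
    ring
  have hδ0 : δ ≠ 0 := by
    intro h
    rw [h] at hδcast
    apply hd
    rw [← hδcast]
    simp
  have hb : ∀ i j : ℕ, i < k → j < k → 2 * |y i - y j| < N := by
    intro i j hi hj
    have h1 := hy'1 i hi
    have h2 := hy'1 j hj
    simp only [hy]
    have h3 : |(y' i : ℤ) - (y' j : ℤ)| < N + h - 12 * h := by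
      rw [abs_lt]
      constructor <;> omega
    omega
  have hstep : ∀ j : ℕ, j + 1 < k → y (j + 1) = y j + δ := by
    intro j hj
    have h1 : (((y (j + 1) - y j - δ : ℤ)) : ZMod N) = 0 := by
      rw [Int.cast_sub, Int.cast_sub, hycast, hycast, hδcast]
      push_cast
      ring
    rw [ZMod.intCast_zmod_eq_zero_iff_dvd] at h1
    have h2 := hb (j + 1) j hj (by omega)
    have h3 := hb 1 0 (by omega) (by omega)
    have h4 : |y (j + 1) - y j - δ| < N := by
      have := abs_sub (y (j + 1) - y j) δ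
      rw [hδ] at this ⊢
      omega
    have h5 := Int.eq_zero_of_abs_lt_dvd h1 h4
    linarith
  have hyj : ∀ j : ℕ, j < k → y j = y 0 + j * δ := by
    intro j
    induction j with
    | zero => intro _; simp
    | succ j ih =>
      intro hj
      rw [hstep j hj, ih (by omega)]
      push_cast
      ring
  -- a prime not dividing δ
  obtain ⟨x, hxδ⟩ : ∃ x, ¬ (p x ∣ δ.natAbs) := by
    by_contra hcon
    push Not at hcon
    have h1 : ∏ x, p x ∣ δ.natAbs := by
      refine Finset.prod_dvd_of_isRelPrime ?_ (fun x _ => hcon x)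
      intro x _ y _ hxy
      exact Nat.coprime_iff_isRelPrime.1 ((Nat.coprime_primes (hp x) (hp y)).2 (fun h => hxy (hpi h)))
    have h2 := Nat.le_of_dvd (Int.natAbs_pos.2 hδ0) h1
    have h3 := hb 1 0 (by omega) (by omega)
    have h4 : 2 ^ (2 ^ m) ≤ ∏ x, p x := by
      have := Finset.prod_le_prod' (s := (Finset.univ : Finset (Fin m → Bool))) (f := fun _ => 2)
        (g := p) (fun x _ => (hp x).two_le)
      simpa using this
    have h5 : (δ.natAbs : ℤ) = |δ| := Int.natCast_natAbs δ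
    rw [← hδ] at h3
    have h6 : (N : ℤ) ≤ |δ| := by
      rw [← h5]
      exact_mod_cast hprod.trans (h4.trans h2)
    have := abs_nonneg δ
    omega
  have hpx := hp x
  have : Fact (p x).Prime := ⟨hpx⟩
  have hδp : ((δ : ℤ) : ZMod (p x)) ≠ 0 := by
    intro h
    rw [ZMod.intCast_zmod_eq_zero_iff_dvd] at h
    exact hxδ (Int.natCast_dvd.1 h)
  -- the term of the progression divisible by `p x`
  set r : ZMod (p x) := (-(y 0) : ℤ) * (((δ : ℤ) : ZMod (p x)))⁻¹ with hr
  have hrv : r.val < p x := ZMod.val_lt r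
  have hj : r.val < k := hrv.trans (hk x)
  have h1 : ((y r.val : ℤ) : ZMod (p x)) = 0 := by
    rw [hyj _ hj]
    push_cast
    rw [ZMod.natCast_zmod_val, hr]
    push_cast
    field_simp
    ring
  rw [ZMod.intCast_zmod_eq_zero_iff_dvd] at h1
  have h2 : p x ∣ y' r.val := by
    simp only [hy] at h1
    exact_mod_cast h1
  have h3 := hy'1 r.val hj
  have h4 := popular_high hq0 hp0 hcop hN1 hN2 hT hK h3.1 h3.2 h2
  rw [hy'cast] at h4
  have h5 := hX r.val hj
  rw [Set.mem_ofPred_eq] at h5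
  omega

/-! ### Primes -/

theorem exists_primes_aux : ∀ᶠ a : ℕ in Filter.atTop, 65 * a ≤ Nat.primeCounting (a ^ 2) := by
  have h1 : Filter.Tendsto (fun a : ℕ => Real.log (a : ℝ) / (a : ℝ)) Filter.atTop (nhds 0) := by
    have := (Real.isLittleO_log_id_atTop.tendsto_div_nhds_zero).comp tendsto_natCast_atTop_atTop
    simpa [Function.comp_def] using this
  have h2 := h1.eventually (ge_mem_nhds (show (0 : ℝ) < 1 / 1000 by norm_num))
  filter_upwards [h2, Filter.eventually_ge_atTop 1000] with a ha1 ha2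
  have hapos : (0 : ℝ) < a := by
    have : (1000 : ℝ) ≤ a := by exact_mod_cast ha2
    linarith
  have ha3 : (1000 : ℝ) ≤ a := by exact_mod_cast ha2
  have hlog : Real.log a ≤ a / 1000 := by
    rw [div_le_iff₀ hapos] at ha1
    linarith
  have hlogpos : 0 < Real.log a := Real.log_pos (by linarith)
  have h3 := Chebyshev.pi_ge (a ^ 2)
  have h4 : (65 * a : ℝ) ≤ (((a ^ 2 : ℕ) : ℝ) * Real.log 2 - Real.log (((a ^ 2 : ℕ) : ℝ) + 1)) /
      Real.log ((a ^ 2 : ℕ) : ℝ) := by
    push_cast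
    have e1 : Real.log ((a : ℝ) ^ 2) = 2 * Real.log a := by
      rw [Real.log_pow]
      norm_num
    rw [e1, le_div_iff₀ (by positivity)]
    have e2 : Real.log ((a : ℝ) ^ 2 + 1) ≤ 3 * Real.log a := by
      have e3 : 3 * Real.log a = Real.log ((a : ℝ) ^ 3) := by
        rw [Real.log_pow]
        norm_num
      rw [e3]
      refine Real.log_le_log (by positivity) ?_
      nlinarith
    have e4 : (0.5 : ℝ) ≤ Real.log 2 := by
      have := Real.log_two_gt_d9
      linarith
    have e5 : (65 * a : ℝ) * (2 * Real.log a) ≤ (65 * a) * (2 * (a / 1000)) := by gcongr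
    have e6 : (a : ℝ) ^ 2 * 0.5 ≤ (a : ℝ) ^ 2 * Real.log 2 := by gcongr
    nlinarith
  have h5 := h4.trans h3
  exact_mod_cast h5

theorem exists_primes : ∀ᶠ a : ℕ in Filter.atTop, ∀ (α : Type) [Fintype α], Fintype.card α = a →
    ∃ f : α → ℕ, Function.Injective f ∧ ∀ x, (f x).Prime ∧ 64 * a < f x ∧ f x ≤ a ^ 2 := by
  filter_upwards [exists_primes_aux] with a ha α _ hα
  obtain ⟨S, hS⟩ : ∃ S : Finset ℕ, S = (Nat.primesLE (a ^ 2)).filter (fun p => 64 * a < p) :=
    ⟨_, rfl⟩
  have hSc : a ≤ S.card := by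
    have h1 := Finset.card_filter_add_card_filter_not (s := Nat.primesLE (a ^ 2))
      (fun p => 64 * a < p)
    have h2 : ((Nat.primesLE (a ^ 2)).filter (fun p => ¬ 64 * a < p)).card ≤ 64 * a := by
      refine (Finset.card_le_card (t := Finset.Icc 1 (64 * a)) ?_).trans (by simp)
      intro p hp
      rw [Finset.mem_filter] at hp
      have := (Nat.prime_of_mem_primesLE hp.1).pos
      rw [Finset.mem_Icc]
      omega
    rw [Nat.primesLE_card_eq_primeCounting, ← hS] at h1
    omega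
  obtain ⟨e⟩ : Nonempty (α ↪ S) := Function.Embedding.nonempty_of_card_le (by simpa [hα] using hSc)
  refine ⟨fun x => (e x : ℕ), fun x y h => e.injective (Subtype.ext h), fun x => ?_⟩
  have h1 : ((e x : ℕ)) ∈ (Nat.primesLE (a ^ 2)).filter (fun p => 64 * a < p) := hS ▸ (e x).2
  rw [Finset.mem_filter] at h1
  refine ⟨Nat.prime_of_mem_primesLE h1.1, h1.2, ?_⟩
  exact Nat.le_of_mem_primesLE h1.1

/-! ### Numerical estimates -/

theorem ev1 : ∀ m : ℕ, 5000 ≤ m →
    32 * (((2 : ℝ) ^ m) ^ 2 * (2 * (m : ℝ) + 2) ^ (2 * (2 * m + 2))) ≤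
      Real.exp (((m : ℝ) - 2) ^ 2 / 4) := by
  intro m hm
  have hm' : (5000 : ℝ) ≤ m := by exact_mod_cast hm
  set u : ℝ := 2 * (m : ℝ) + 2 with hu
  have hu0 : 0 < u := by positivity
  set w : ℝ := Real.sqrt u with hw
  have hw2 : w ^ 2 = u := Real.sq_sqrt hu0.le
  have hw66 : (66 : ℝ) ≤ w := by
    rw [hw]
    refine Real.le_sqrt_of_sq_le ?_
    rw [hu]
    norm_num
    linarith
  have hwpos : 0 < w := by linarith
  have hlogu : Real.log u ≤ 2 * w := by
    rw [← hw2, Real.log_pow]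
    have := Real.log_le_sub_one_of_pos hwpos
    push_cast
    linarith
  have e1 : (2 : ℝ) ≤ Real.exp 1 := by
    have := Real.add_one_le_exp (1 : ℝ)
    linarith
  have e2 : (32 : ℝ) ≤ Real.exp 5 := by
    calc (32 : ℝ) = 2 ^ 5 := by norm_num
      _ ≤ (Real.exp 1) ^ 5 := by gcongr
      _ = Real.exp 5 := by rw [← Real.exp_nat_mul]; norm_num
  have e3 : ((2 : ℝ) ^ m) ^ 2 ≤ Real.exp (2 * m) := by
    rw [← pow_mul]
    calc (2 : ℝ) ^ (m * 2) ≤ (Real.exp 1) ^ (m * 2) := by gcongr
      _ = Real.exp (2 * m) := by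
        rw [← Real.exp_nat_mul]
        congr 1
        push_cast
        ring
  have e4 : u ^ (2 * (2 * m + 2)) ≤ Real.exp (4 * w ^ 3) := by
    have : u ^ (2 * (2 * m + 2)) = Real.exp (2 * u * Real.log u) := by
      have h1 : u ^ (2 * (2 * m + 2)) = (Real.exp (Real.log u)) ^ (2 * (2 * m + 2)) := by
        rw [Real.exp_log hu0]
      rw [h1, ← Real.exp_nat_mul]
      congr 1
      push_cast
      rw [hu]
    rw [this]
    refine Real.exp_le_exp.2 ?_
    calc 2 * u * Real.log u ≤ 2 * u * (2 * w) := by gcongr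
      _ = 4 * w ^ 3 := by rw [← hw2]; ring
  calc 32 * (((2 : ℝ) ^ m) ^ 2 * u ^ (2 * (2 * m + 2)))
      ≤ Real.exp 5 * (Real.exp (2 * m) * Real.exp (4 * w ^ 3)) := by gcongr
    _ = Real.exp (5 + 2 * m + 4 * w ^ 3) := by rw [← Real.exp_add, ← Real.exp_add]; ring_nf
    _ ≤ Real.exp (((m : ℝ) - 2) ^ 2 / 4) := by
      refine Real.exp_le_exp.2 ?_
      have hm2 : (m : ℝ) = (w ^ 2 - 2) / 2 := by
        rw [hw2, hu]
        ring
      rw [hm2]
      nlinarith [mul_nonneg (sub_nonneg.2 hw66) (pow_nonneg hwpos.le 3),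
        mul_nonneg (sub_nonneg.2 hw66) (pow_nonneg hwpos.le 2),
        mul_nonneg (sub_nonneg.2 hw66) hwpos.le]

theorem pow_ge (k : ℕ) (hk : 5 ≤ k) : k ^ 2 + 28 ≤ 4 * 2 ^ k := by
  induction k, hk using Nat.le_induction with
  | base => norm_num
  | succ k hk ih =>
    rw [pow_succ 2 k]
    nlinarith

/-- For every large prime `N` there is `A ⊆ ℤ_N` with `|A| > N/4`, `|A + A| ≤ 7N/8`, such that
the set of the `x` with fewer than `N exp(-(log log N)^2)` representations contains no arithmetic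
progression of length at least `(log N)^3`. -/
theorem strong : ∃ N₀ : ℕ, ∀ N : ℕ, N₀ ≤ N → N.Prime → ∃ A : Finset (ZMod N),
    (N : ℝ) / 4 < (A.card : ℝ) ∧ ((A + A).card : ℝ) ≤ 7 / 8 * (N : ℝ) ∧
    ∀ k : ℕ, (Real.log N) ^ 3 ≤ (k : ℝ) → ¬ HasAP N
      {x : ZMod N | (rep A x : ℝ) < N * Real.exp (-(Real.log (Real.log N)) ^ 2)} k := by
  obtain ⟨a₀, ha₀⟩ := Filter.eventually_atTop.1 exists_primes
  refine ⟨2 ^ (2 ^ (a₀ + 5000)), ?_⟩
  intro N hN hNp
  set m : ℕ := Nat.clog 2 (Nat.clog 2 N) with hm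
  have hmN : N ≤ 2 ^ (2 ^ m) :=
    (Nat.le_pow_clog (by norm_num) N).trans
      (Nat.pow_le_pow_right (by norm_num) (Nat.le_pow_clog (by norm_num) _))
  have hm1 : a₀ + 5000 ≤ m := by
    have h1 := hN.trans hmN
    have h2 := (Nat.pow_le_pow_iff_right (by norm_num : 1 < 2)).1 h1
    exact (Nat.pow_le_pow_iff_right (by norm_num : 1 < 2)).1 h2
  have hmN' : 2 ^ (2 ^ (m - 1)) < N := by
    have h1 : m - 1 < Nat.clog 2 (Nat.clog 2 N) := by omega
    have h2 := (Nat.lt_clog_iff_pow_lt (by norm_num)).1 h1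
    exact (Nat.lt_clog_iff_pow_lt (by norm_num)).1 h2
  set a : ℕ := 2 * m + 2 with ha
  obtain ⟨p, hpi, hp⟩ := ha₀ (2 ^ m) (by
    have := Nat.lt_two_pow_self (n := m)
    omega) (Fin m → Bool) (by simp)
  obtain ⟨q, hqi, hq⟩ := ha₀ a (by omega) (Option (Fin m) × Bool) (by
    rw [Fintype.card_prod, Fintype.card_option, Fintype.card_fin, Fintype.card_bool]
    omega)
  set h : ℕ := N / 16 with hh
  set T : ℕ := (2 ^ m) ^ 2 * (a ^ 2) ^ a with hT
  have hTpos : 0 < T := by positivity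
  set K : ℕ := (h - 16) / T with hK
  have hNbig : 2 ^ (m + 7) ≤ N := by
    refine le_trans ?_ hmN'.le
    refine Nat.pow_le_pow_right (by norm_num) ?_
    have := pow_ge (m - 1) (by omega)
    have h2 : (m - 1) ^ 2 ≥ 8 * (m - 1) := by
      rw [sq]
      exact Nat.mul_le_mul_right _ (by omega)
    omega
  have hmm : m + 1000 ≤ 2 ^ m := by
    have := pow_ge m (by omega)
    have h2 : m ^ 2 ≥ 100 * m := by
      rw [sq]
      exact Nat.mul_le_mul_right _ (by omega)
    omega
  have hN7 : 128 * 2 ^ m ≤ N := by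
    rw [pow_add] at hNbig
    omega
  have hp0 : ∀ x, 0 < p x := fun x => (hp x).1.pos
  have hq0 : ∀ x, 0 < q x := fun x => (hq x).1.pos
  have hQ : ∀ x s, Q q x s ≤ (a ^ 2) ^ (m + 1) := by
    intro x s
    unfold Q
    refine (Finset.prod_le_pow_card _ _ (a ^ 2) (fun o _ => (hq _).2.2)).trans ?_
    simp
  have hTx : ∀ x, p x * (Q q x false * Q q x true) ≤ T := by
    intro x
    rw [hT]
    refine Nat.mul_le_mul (hp x).2.2 ?_
    calc Q q x false * Q q x true ≤ (a ^ 2) ^ (m + 1) * (a ^ 2) ^ (m + 1) :=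
        Nat.mul_le_mul (hQ x _) (hQ x _)
      _ = (a ^ 2) ^ a := by rw [← pow_add, ha]; ring_nf
  have hKT : K * T + 16 ≤ h := by
    have := Nat.div_mul_le_self (h - 16) T
    rw [← hK] at this
    omega
  refine ⟨A1 q p N (9 * h), ?_, ?_, ?_⟩
  · have h1 := card_A1 (q := q) (p := p) (N := N) (H := 9 * h) hNp.one_lt
    have h2 : ((N / 4 + 1 : ℕ) : ℝ) ≤ ((A1 q p N (9 * h)).card : ℝ) := by exact_mod_cast h1
    have h3 : (N : ℝ) / 4 < ((N / 4 + 1 : ℕ) : ℝ) := by
      have : N < 4 * (N / 4 + 1) := by omega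
      have h4 : (N : ℝ) < 4 * ((N / 4 + 1 : ℕ) : ℝ) := by exact_mod_cast this
      linarith
    linarith
  · have h1 := card_A1_add (q := q) (p := p) (N := N) (H := 9 * h) (P := 64 * 2 ^ m) (B := 64 * a)
      (by positivity) (by omega) (fun x => (hp x).2.1.le) (fun i => (hq i).2.1.le) (by omega)
    have h2 : 2 ^ m * (2 * (9 * h) / (64 * 2 ^ m) + 1) ≤ 18 * h / 64 + 2 ^ m := by
      have e1 : 2 * (9 * h) / (64 * 2 ^ m) = 18 * h / 64 / 2 ^ m := by
        rw [Nat.div_div_eq_div_mul]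
        congr 1
        ring
      rw [e1, mul_add, mul_one]
      exact Nat.add_le_add_right (Nat.mul_div_le _ _) _
    have h3 : 2 * (m + 1) * (2 * (9 * h) / (64 * a) + 1) ≤ 18 * h / 64 + a := by
      have e1 : 2 * (9 * h) / (64 * a) = 18 * h / 64 / a := by
        rw [Nat.div_div_eq_div_mul]
        congr 1
        ring
      have e2 : 2 * (m + 1) = a := by omega
      rw [e1, e2, mul_add, mul_one]
      exact Nat.add_le_add_right (Nat.mul_div_le _ _) _
    have h4 : 8 * (A1 q p N (9 * h) + A1 q p N (9 * h)).card ≤ 7 * N := by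
      generalize 2 ^ m = M at *
      omega
    have h5 : (8 : ℝ) * ((A1 q p N (9 * h) + A1 q p N (9 * h)).card : ℝ) ≤ 7 * N := by
      exact_mod_cast h4
    linarith
  · intro k hk hAP
    have hmR : (5000 : ℝ) ≤ m := by
      have : 5000 ≤ m := by omega
      exact_mod_cast this
    have hNR : (0 : ℝ) < N := by exact_mod_cast hNp.pos
    -- lower bound for `log N`
    have hlog : (2 : ℝ) ^ (m - 1) * Real.log 2 ≤ Real.log N := by
      have e1 : Real.log ((2 : ℝ) ^ (2 ^ (m - 1))) ≤ Real.log N := by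
        refine Real.log_le_log (by positivity) ?_
        exact_mod_cast hmN'.le
      rw [Real.log_pow] at e1
      push_cast at e1
      exact e1
    have hlog2 : (0.69 : ℝ) ≤ Real.log 2 := by
      have := Real.log_two_gt_d9
      linarith
    have hpk : ∀ x, p x < k := by
      intro x
      have e1 : ((2 : ℝ) ^ (m - 1) * 0.69) ^ 3 ≤ (k : ℝ) := by
        refine le_trans ?_ hk
        refine pow_le_pow_left₀ (by positivity) (le_trans ?_ hlog) 3
        gcongr
      have e2 : (p x : ℝ) ≤ ((2 : ℝ) ^ m) ^ 2 := by exact_mod_cast (hp x).2.2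
      have e3 : (2 : ℝ) ^ m = 2 * (2 : ℝ) ^ (m - 1) := by
        rw [← pow_succ']
        congr 1
        omega
      have e4 : (16 : ℝ) < (2 : ℝ) ^ (m - 1) := by
        calc (16 : ℝ) < 2 ^ 5 := by norm_num
          _ ≤ 2 ^ (m - 1) := pow_le_pow_right₀ (by norm_num) (by omega)
      have e5 : (p x : ℝ) < (k : ℝ) := by
        refine lt_of_le_of_lt e2 (lt_of_lt_of_le ?_ e1)
        rw [e3]
        generalize (2 : ℝ) ^ (m - 1) = z at *
        have : 0 < z ^ 2 := by positivity
        nlinarith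
      exact_mod_cast e5
    refine no_AP (k := k) hq0 (fun x => (hp x).1) hpi ?_ (by omega : 16 * h ≤ N) (by omega)
      (by omega) hTx hKT hmN hpk ?_
    · intro i j hij
      exact (Nat.coprime_primes (hq i).1 (hq j).1).2 (fun h => hij (hqi h))
    · -- the level
      obtain ⟨hk1, b, d, hd, hbd⟩ := hAP
      refine ⟨hk1, b, d, hd, fun j hj => ?_⟩
      have h1 := hbd j hj
      rw [Set.mem_ofPred_eq] at h1 ⊢
      have h2 : (N : ℝ) * Real.exp (-(Real.log (Real.log N)) ^ 2) ≤ (K : ℝ) := by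
        set E : ℝ := Real.exp (((m : ℝ) - 2) ^ 2 / 4) with hE
        have hE1 : 1 ≤ E := Real.one_le_exp (by positivity)
        have hTE : 32 * (T : ℝ) ≤ E := by
          have e1 := ev1 m (by omega)
          have e2 : (T : ℝ) = ((2 : ℝ) ^ m) ^ 2 * (2 * (m : ℝ) + 2) ^ (2 * (2 * m + 2)) := by
            rw [hT, ha]
            push_cast
            rw [pow_mul (2 * (m : ℝ) + 2) 2]
          rw [e2]
          exact e1
        have hm2 : ((m - 2 : ℕ) : ℝ) = (m : ℝ) - 2 := by
          rw [Nat.cast_sub (by omega)]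
          norm_num
        have hpow : (2 : ℝ) ^ (m - 2) ≤ Real.log N := by
          refine le_trans ?_ hlog
          have e3 : (2 : ℝ) ^ (m - 1) = 2 * (2 : ℝ) ^ (m - 2) := by
            rw [← pow_succ']
            congr 1
            omega
          rw [e3]
          have : (0 : ℝ) < (2 : ℝ) ^ (m - 2) := by positivity
          nlinarith
        have hEN : 1000 * E ≤ N := by
          have e1 : ((m : ℝ) - 2) ^ 2 / 4 + 7 ≤ (2 : ℝ) ^ (m - 2) := by
            have e2 := pow_ge (m - 2) (by omega)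
            have e3 : (((m - 2 : ℕ) : ℝ)) ^ 2 + 28 ≤ 4 * (2 : ℝ) ^ (m - 2) := by exact_mod_cast e2
            rw [hm2] at e3
            linarith
          have e4 : Real.exp (((m : ℝ) - 2) ^ 2 / 4 + 7) ≤ N := by
            rw [← Real.le_log_iff_exp_le hNR]
            exact e1.trans hpow
          rw [Real.exp_add] at e4
          have e5 : (1000 : ℝ) ≤ Real.exp 7 := by
            have := Real.exp_one_gt_d9
            calc (1000 : ℝ) ≤ 2.7182818283 ^ 7 := by norm_num
              _ ≤ (Real.exp 1) ^ 7 := by gcongr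
              _ = Real.exp 7 := by rw [← Real.exp_nat_mul]; norm_num
          nlinarith
        have hLL : ((m : ℝ) - 2) / 2 ≤ Real.log (Real.log N) := by
          have e1 : Real.log ((2 : ℝ) ^ (m - 2)) ≤ Real.log (Real.log N) :=
            Real.log_le_log (by positivity) hpow
          rw [Real.log_pow, hm2] at e1
          nlinarith
        have hexp : E * Real.exp (-(Real.log (Real.log N)) ^ 2) ≤ 1 := by
          rw [hE, ← Real.exp_add, Real.exp_le_one_iff]
          have e1 : (((m : ℝ) - 2) / 2) ^ 2 ≤ (Real.log (Real.log N)) ^ 2 :=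
            pow_le_pow_left₀ (by linarith) hLL 2
          nlinarith
        have hTR : (0 : ℝ) < T := by exact_mod_cast hTpos
        have hKR : (N : ℝ) ≤ 32 * T * K := by
          have e1 : h - 16 < (K + 1) * T := by
            have := Nat.lt_div_mul_add (a := h - 16) hTpos
            rw [← hK] at this
            linarith
          have e2 : N < 16 * ((K + 1) * T) + 272 := by omega
          have e3 : (N : ℝ) < 16 * (((K : ℝ) + 1) * T) + 272 := by exact_mod_cast e2
          nlinarith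
        have hexp0 : 0 < Real.exp (-(Real.log (Real.log N)) ^ 2) := Real.exp_pos _
        have hK0 : (0 : ℝ) ≤ K := by positivity
        calc (N : ℝ) * Real.exp (-(Real.log (Real.log N)) ^ 2)
            ≤ (32 * T * K) * Real.exp (-(Real.log (Real.log N)) ^ 2) := by gcongr
          _ = (32 * T * Real.exp (-(Real.log (Real.log N)) ^ 2)) * K := by ring
          _ ≤ (E * Real.exp (-(Real.log (Real.log N)) ^ 2)) * K := by gcongr
          _ ≤ 1 * K := by gcongr
          _ = K := one_mul _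
      have h3 := h1.trans_le h2
      exact_mod_cast h3

theorem HasAP.mono {N : ℕ} {X Y : Set (ZMod N)} {k : ℕ} (h : HasAP N X k) (hXY : X ⊆ Y) :
    HasAP N Y k := by
  obtain ⟨h1, a, d, hd, h2⟩ := h
  exact ⟨h1, a, d, hd, fun j hj => hXY (h2 j hj)⟩

/-- **Disproof of Q1.** For any `c₁, c₂, c₃, c₄ ∈ (0,1)` and all large primes `N` there is
`A ⊆ ℤ_N` satisfying both hypotheses of Q1, in fact with `|A| > N/4` and `|A + A| ≤ 7N/8`, such
that the lower level set contains no progression of length at least `exp((log N)^c₄)`; moreover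
the level can be raised to `N exp(-(log log N)^2)` and the length lowered to `(log N)^3`. -/
theorem result :
    (∃ N₀ : ℕ, ∀ N : ℕ, N₀ ≤ N → N.Prime → ∃ A : Finset (ZMod N),
      (N : ℝ) / 4 < (A.card : ℝ) ∧ ((A + A).card : ℝ) ≤ 7 / 8 * (N : ℝ) ∧
      ∀ k : ℕ, (Real.log N) ^ 3 ≤ (k : ℝ) → ¬ HasAP N
        {x : ZMod N | (rep A x : ℝ) < N * Real.exp (-(Real.log (Real.log N)) ^ 2)} k) ∧
    (∀ c₁ c₂ c₃ c₄ : ℝ, 0 < c₁ → c₁ < 1 → 0 < c₂ → c₂ < 1 → 0 < c₃ → c₃ < 1 → 0 < c₄ → c₄ < 1 →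
      ∀ N₀ : ℕ, ∃ N : ℕ, N₀ ≤ N ∧ N.Prime ∧ ∃ A : Finset (ZMod N),
        (N : ℝ) * Real.exp (-(Real.log N) ^ c₁) < (A.card : ℝ) ∧
        ((A + A).card : ℝ) ≤ (N : ℝ) * (1 - Real.exp (-(Real.log N) ^ c₂)) ∧
        ∀ k : ℕ, Real.exp ((Real.log N) ^ c₄) ≤ (k : ℝ) → ¬ HasAP N
          {x : ZMod N | (rep A x : ℝ) < N * Real.exp (-(Real.log N) ^ c₃)} k) := by
  refine ⟨strong, ?_⟩
  intro c₁ c₂ c₃ c₄ h1 _ h2 _ h3 _ h4 _ N₁
  obtain ⟨N₀, hN₀⟩ := strong
  have hlogt : Filter.Tendsto (fun N : ℕ => Real.log (N : ℝ)) Filter.atTop Filter.atTop :=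
    Real.tendsto_log_atTop.comp tendsto_natCast_atTop_atTop
  have hpow : ∀ c : ℝ, 0 < c → Filter.Tendsto (fun N : ℕ => (Real.log (N : ℝ)) ^ c)
      Filter.atTop Filter.atTop := fun c hc => (tendsto_rpow_atTop hc).comp hlogt
  have hsmall : ∀ c : ℝ, 0 < c → ∀ C : ℝ, ∀ᶠ N : ℕ in Filter.atTop,
      C ≤ (Real.log (N : ℝ)) ^ c := fun c hc C =>
    (hpow c hc).eventually (Filter.eventually_ge_atTop C)
  have hll : ∀ c : ℝ, 0 < c → ∀ᶠ N : ℕ in Filter.atTop,
      3 * Real.log (Real.log (N : ℝ)) ≤ (Real.log (N : ℝ)) ^ c ∧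
      (Real.log (Real.log (N : ℝ))) ^ 2 ≤ (Real.log (N : ℝ)) ^ c := by
    intro c hc
    have e1 : ∀ᶠ t : ℝ in Filter.atTop, 3 * Real.log t ≤ t ^ c := by
      have := (isLittleO_log_rpow_atTop hc).bound (show (0 : ℝ) < 1 / 3 by norm_num)
      filter_upwards [this, Filter.eventually_ge_atTop 1] with t ht ht1
      rw [Real.norm_of_nonneg (Real.log_nonneg ht1), Real.norm_of_nonneg (by positivity)] at ht
      linarith
    have e2 : ∀ᶠ t : ℝ in Filter.atTop, (Real.log t) ^ 2 ≤ t ^ c := by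
      have := (isLittleO_log_rpow_atTop (half_pos hc)).bound (show (0 : ℝ) < 1 by norm_num)
      filter_upwards [this, Filter.eventually_ge_atTop 1] with t ht ht1
      rw [Real.norm_of_nonneg (Real.log_nonneg ht1), Real.norm_of_nonneg (by positivity),
        one_mul] at ht
      calc (Real.log t) ^ 2 ≤ (t ^ (c / 2)) ^ 2 := pow_le_pow_left₀ (Real.log_nonneg ht1) ht 2
        _ = t ^ c := by
          rw [← Real.rpow_natCast, ← Real.rpow_mul (by linarith)]
          congr 1
          push_cast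
          ring
    exact (hlogt.eventually e1).and (hlogt.eventually e2)
  obtain ⟨N₂, hN₂⟩ := Filter.eventually_atTop.1 ((hsmall c₁ h1 2).and ((hsmall c₂ h2 3).and
    ((hll c₃ h3).and (hll c₄ h4))))
  obtain ⟨N, hN, hNp⟩ := Nat.exists_infinite_primes (N₀ + N₁ + N₂ + 3)
  obtain ⟨g1, g2, g3, g4⟩ := hN₂ N (by omega)
  obtain ⟨A, hA1, hA2, hA3⟩ := hN₀ N (by omega) hNp
  have hNR : (0 : ℝ) < N := by exact_mod_cast hNp.pos
  have hN3 : (3 : ℝ) ≤ N := by
    have : 3 ≤ N := by omega
    exact_mod_cast this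
  have hlogpos : 0 < Real.log N := Real.log_pos (by linarith)
  refine ⟨N, by omega, hNp, A, ?_, ?_, ?_⟩
  · refine lt_of_le_of_lt ?_ hA1
    have e1 : Real.exp (-(Real.log N) ^ c₁) ≤ 1 / 4 := by
      have e2 : Real.exp (-(Real.log N) ^ c₁) ≤ Real.exp (-2) := Real.exp_le_exp.2 (by linarith)
      refine e2.trans ?_
      rw [Real.exp_neg, ← one_div]
      refine one_div_le_one_div_of_le (by norm_num) ?_
      have := Real.add_one_le_exp (1 : ℝ)
      have e3 : Real.exp 2 = Real.exp 1 * Real.exp 1 := by rw [← Real.exp_add]; norm_num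
      nlinarith
    calc (N : ℝ) * Real.exp (-(Real.log N) ^ c₁) ≤ N * (1 / 4) := by gcongr
      _ = N / 4 := by ring
  · refine hA2.trans ?_
    have e1 : Real.exp (-(Real.log N) ^ c₂) ≤ 1 / 8 := by
      have e2 : Real.exp (-(Real.log N) ^ c₂) ≤ Real.exp (-3) := Real.exp_le_exp.2 (by linarith)
      refine e2.trans ?_
      rw [Real.exp_neg, ← one_div]
      refine one_div_le_one_div_of_le (by norm_num) ?_
      have := Real.add_one_le_exp (1 : ℝ)
      have e3 : Real.exp 3 = Real.exp 1 * (Real.exp 1 * Real.exp 1) := by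
        rw [← Real.exp_add, ← Real.exp_add]; norm_num
      nlinarith [mul_le_mul this this (by norm_num) (Real.exp_pos 1).le]
    nlinarith
  · intro k hk hAP
    refine hA3 k ?_ (hAP.mono ?_)
    · refine le_trans ?_ hk
      have e1 : (Real.log N) ^ 3 = Real.exp (3 * Real.log (Real.log N)) := by
        rw [show (3 : ℝ) * Real.log (Real.log N) = ((3 : ℕ) : ℝ) * Real.log (Real.log N) by norm_num,
          Real.exp_nat_mul, Real.exp_log hlogpos]
      rw [e1]
      exact Real.exp_le_exp.2 g4.1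
    · intro x hx
      rw [Set.mem_ofPred_eq] at hx ⊢
      refine hx.trans_le ?_
      refine mul_le_mul_of_nonneg_left (Real.exp_le_exp.2 ?_) hNR.le
      exact neg_le_neg g3.2

end Pool.Agent.Results.MP_0ddcb0_nt.LowerLevelSets
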